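import Pool.Agent.N770.TriLogs

/-!
# Quadratic relations between linear forms in three logarithms: at most three planes

Let `p, q, r` be distinct primes and let `V` be the space of all linear forms
`b_0 + b_1 log p + b_2 log q + b_3 log r` with algebraic coefficients. Two forms `u, v ∈ V` should be
algebraically independent if `1, u, v` are linearly independent over the algebraic numbers. We prove:
there are at most three planes `⟨1, u, v⟩` in `V` such that `u` and `v` satisfy a nonzero polynomial
relation of degree at most two. For example, at least one of the four pairs `(log p, log q)`,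
`(log p, log r)`, `(log q, log r)`, `(log (p q), log (p r))` satisfies no such relation. The same
holds for any space `V` of dimension at most four of linear forms in logarithms of algebraic numbers.

The proof. Let `T₁, T₂, T₃, T₄` be four such planes. The intersection of `T₁` and `T₂` is a line
`⟨1, v⟩`. By the linear independence of directions (`Dir`) at most two of the planes contain `v`. We
have `T₁ = ⟨1, v, a⟩` and `T₂ = ⟨1, v, b⟩`, where each of `a` and `b` is the square root of a
polynomial in `v` of degree at most two, which is not a square, or `v ^ 2` or `1 / (v - c)`, and at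
most one of them is of the two last types by the strong six exponentials theorem. The planes `T₃` and
`T₄` are of the form `⟨1, a - α v, b - β v⟩`. From the linear independence of `1, a, b, a b` over the
field of the rational functions in `v` we get that `α` and `β` are determined by `a` and `b`, so that
`T₃ = T₄` (`Tri`, `Tri2`, `Tri3`).
-/

set_option autoImplicit false

namespace Pool.Agent.Results.MP_d171e3_nt.AtMostThreeQuadraticPlanes

/-- The space of all linear combinations, with algebraic coefficients, of `1` and of logarithms of
algebraic numbers. -/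
noncomputable def LogForms : Submodule (algebraicClosure ℚ ℂ) ℂ :=
  Submodule.span (algebraicClosure ℚ ℂ) ({1} ∪ {z : ℂ | IsAlgebraic ℚ (Complex.exp z)})

/-- `u` and `v` satisfy a nonzero polynomial relation, with algebraic coefficients, of total degree
at most two -/
def QuadraticRelation (u v : ℂ) : Prop :=
  ∃ c : Fin 6 → algebraicClosure ℚ ℂ, c ≠ 0 ∧
    (c 0 : ℂ) * u ^ 2 + (c 1 : ℂ) * (u * v) + (c 2 : ℂ) * v ^ 2 + (c 3 : ℂ) * u + (c 4 : ℂ) * v +
      (c 5 : ℂ) = 0

/-- **Main result.** -/
theorem result (V : Submodule (algebraicClosure ℚ ℂ) ℂ)
    [FiniteDimensional (algebraicClosure ℚ ℂ) V] (hV : V ≤ LogForms)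
    (hV4 : Module.finrank (algebraicClosure ℚ ℂ) V ≤ 4) :
    {T : Submodule (algebraicClosure ℚ ℂ) ℂ | T ≤ V ∧ ∃ u v : ℂ,
      LinearIndependent (algebraicClosure ℚ ℂ) ![1, u, v] ∧ QuadraticRelation u v ∧
        T = Submodule.span (algebraicClosure ℚ ℂ) {1, u, v}}.encard ≤ 3 := by
  refine le_trans (Set.encard_le_encard ?_) (Pool.Agent.N770.encard_bad_le V hV hV4)
  rintro T ⟨hTV, u, v, hli, ⟨c, hc, hrel⟩, hT⟩
  refine ⟨hTV, u, v, hli, hT, c, hc, ?_⟩
  rw [← hrel]
  have h : ∀ (a : algebraicClosure ℚ ℂ) (x : ℂ), a • x = (a : ℂ) * x := fun a x =>
    Algebra.smul_def a x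
  rw [h, h, h, h, h, h]
  ring

end Pool.Agent.Results.MP_d171e3_nt.AtMostThreeQuadraticPlanes
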