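import Mathlib
import Pool.Agent.N778.XE.Count
import Pool.Agent.N778.CH.Block

set_option autoImplicit false

/-!
# For each prime `p`, the numbers `log p`, `∫_1^p (log t)^l e^(-x t) dt / t` with at most one exception

Let `x > 0` be a real algebraic number. For `b > 0` and `l ≥ 0` let `L_l(b) = ∫_1^b (log t)^l e^(-x t) dt / t`,
and for `l ≥ 1` let `E_l = ∑_{m ≥ 1} (-1)^(m-1) x^m / (m! m^l)`.

For complex numbers `a_1, …, a_n` with `a_n ≠ 0` let `I(a_1, …, a_n)` be the iterated integral of the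
forms `ω_{a_1}(t_1), …, ω_{a_n}(t_n)` over `1 > t_1 > … > t_n > 0`, where `ω_0 = dt / t` and
`ω_a = (exp (a t) - 1) dt / t` for `a ≠ 0`. Let `𝓕` be the field which is generated by all algebraic
numbers, all numbers `exp α`, `α` algebraic, and all numbers `I(a_1, …, a_n)` with algebraic
`a_1, …, a_n`, none of which is a negative real number.

(1) Let `B` be a set of positive algebraic numbers different from `1` (for example the set of all primes). For each
`b` in `B` one can leave out at most one of the numbers `log b, L_0(b), L_1(b), L_2(b), …` such that all the remaining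
numbers, for all `b` in `B` together, and the numbers `E_1, E_2, E_3, …` are algebraically independent over `𝓕`.

(2) There is a set `S` of primes such that the numbers `log p`, `p` in `S`, and the numbers `L_l(p)`, `l ≥ 0`, for all the
primes `p` which are not in `S`, are algebraically independent over `𝓕`. So the logarithms of the primes in `S` are
algebraically independent (over the field `𝓕`, which contains `e`), and for the other primes the integrals are.

(3) Let `P` be a finite set of primes. If the numbers `log p`, `p` in `P`, are algebraically dependent over `𝓕` (for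
example, over `ℚ`) then there is a prime `q` in `P` such that `log q` can be left out in (1), i.e. for which all the
numbers `L_l(q)`, `l ≥ 0`, are algebraically independent over `𝓕`.
-/

namespace Pool.Agent.Results.MP_d171e3_nt.OneExceptionPerPrime

open Set

/-- `L_l(b) = ∫_1^b (log t)^l e^(-x t) dt / t` -/
noncomputable def L (x : ℝ) (l : ℕ) (b : ℝ) : ℝ := ∫ t in (1 : ℝ)..b, Real.log t ^ l * Real.exp (-(x * t)) / t

/-- `E_l = ∑_{m ≥ 1} (-1)^(m-1) x^m / (m! m^l)` -/
noncomputable def E (l : ℕ) (x : ℝ) : ℝ :=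
  ∑' m : ℕ, -(-x) ^ (m + 1) / ((m + 1).factorial * ((m : ℝ) + 1) ^ l)

/-- the iterated integral of `ω_{a_1}(t_1), …, ω_{a_n}(t_n)` over `t > t_1 > … > t_n > 0` -/
noncomputable def iterated : List ℂ → ℝ → ℂ
  | [], _ => 1
  | a :: v, t => ∫ s in (0 : ℝ)..t, (if a = 0 then 1 else Complex.exp (a * s) - 1) * iterated v s / s

/-- `I(a_1, …, a_n)` -/
noncomputable def I (w : List ℂ) : ℂ := iterated w 1

/-- the entries are algebraic, the last one is not zero, and none of them is a negative real number -/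
def Admissible (w : List ℂ) : Prop :=
  (∀ a ∈ w, IsAlgebraic ℚ a) ∧ (∀ h : w ≠ [], w.getLast h ≠ 0) ∧ ∀ a ∈ w, ¬ (a.im = 0 ∧ a.re < 0)

/-- the field `𝓕` -/
noncomputable def baseField : IntermediateField ℚ ℂ := IntermediateField.adjoin ℚ
  ({z | IsAlgebraic ℚ z} ∪ {z | ∃ b : ℂ, IsAlgebraic ℚ b ∧ z = Complex.exp b} ∪
    {z | ∃ w : List ℂ, Admissible w ∧ z = I w})

/-- the numbers `log b, L_0(b), L_1(b), …` -/
noncomputable def value (x b : ℝ) : ℕ → ℝ
  | 0 => Real.log b
  | l + 1 => L x l b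

open Pool.Agent.N902.EW Pool.Agent.N778.XE Pool.Agent.N778.CH
open Pool.Agent.R352.E (EE)

theorem iterated_eq (w : List ℂ) : ∀ t : ℝ, iterated w t = II w t := by
  induction w with
  | nil => intro t; rfl
  | cons a v ih =>
    intro t
    rw [iterated, II]
    refine intervalIntegral.integral_congr fun s _ => ?_
    show (if a = 0 then 1 else Complex.exp (a * s) - 1) * iterated v s / s = _
    rw [ih]

theorem baseField_eq : baseField = FX := by
  rw [baseField, FX, GX]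
  congr 2
  ext z
  constructor
  · rintro ⟨w, hw, rfl⟩
    exact ⟨w, ⟨hw.1, hw.2.1⟩, hw.2.2, iterated_eq w 1⟩
  · rintro ⟨w, hw, hneg, rfl⟩
    exact ⟨w, ⟨hw.1, hw.2, hneg⟩, (iterated_eq w 1).symm⟩

/-- the substitution `t = e^s` -/
theorem L_eq (x : ℝ) (l : ℕ) {b : ℝ} (hb : 0 < b) : L x l b = JI l x (Real.log b) := by
  have h1 := intervalIntegral.integral_comp_mul_deriv'' (a := 0) (b := Real.log b) (f := Real.exp) (f' := Real.exp)
    (g := fun t : ℝ => Real.log t ^ l * Real.exp (-(x * t)) / t) Real.continuous_exp.continuousOn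
    (fun s _ => (Real.hasDerivAt_exp s).hasDerivWithinAt) Real.continuous_exp.continuousOn (by
      rintro t ⟨s, -, rfl⟩
      refine ContinuousAt.continuousWithinAt ?_
      have h0 : Real.exp s ≠ 0 := (Real.exp_pos s).ne'
      refine ContinuousAt.div (ContinuousAt.mul ((Real.continuousAt_log h0).pow l) ?_) continuousAt_id h0
      fun_prop)
  rw [Real.exp_zero, Real.exp_log hb] at h1
  rw [L, ← h1, JI]
  refine intervalIntegral.integral_congr fun s _ => ?_
  show (Real.log (Real.exp s) ^ l * Real.exp (-(x * Real.exp s)) / Real.exp s) * Real.exp s = _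
  rw [Real.log_exp, div_mul_cancel₀ _ (Real.exp_pos s).ne']

theorem part1 {x : ℝ} (hx : 0 < x) (hxa : IsAlgebraic ℚ x) (B : Set ℝ) (hB : ∀ b ∈ B, 0 < b ∧ b ≠ 1 ∧ IsAlgebraic ℚ b) :
    ∃ C : B → Set ℕ, (∀ b, (C b)ᶜ.Subsingleton) ∧ AlgebraicIndependent baseField
      (Sum.elim (fun p : {p : B × ℕ // p.2 ∈ C p.1} => ((value x p.1.1 p.1.2 : ℝ) : ℂ))
        (fun l : ℕ => ((E (l + 1) x : ℝ) : ℂ))) := by
  classical
  have hc : Countable B := by
    refine ((Algebraic.countable ℚ ℝ).mono fun b hb => ?_).to_subtype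
    exact (hB b hb).2.2
  let g : (B × ℕ) ⊕ ℕ → PA × ℕ := Sum.elim
    (fun p => (⟨x * p.1.1, mul_pos hx (hB _ p.1.2).1, hxa.mul (hB _ p.1.2).2.2⟩, p.2)) (fun l => (⟨x, hx, hxa⟩, l))
  have hg : Function.Injective g := by
    rintro (⟨b, k⟩ | l) (⟨b', k'⟩ | l') h
    · have h1 : x * b.1 = x * b'.1 := congrArg (fun z => z.1.1) h
      have h2 : k = k' := congrArg (fun z => z.2) h
      have h3 := Subtype.ext (mul_left_cancel₀ hx.ne' h1)
      subst h3 h2
      rfl
    · exfalso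
      have h1 : x * b.1 = x := congrArg (fun z => z.1.1) h
      exact (hB _ b.2).2.1 (mul_left_cancel₀ hx.ne' (by rw [h1, mul_one]))
    · exfalso
      have h1 : x = x * b'.1 := congrArg (fun z => z.1.1) h
      exact (hB _ b'.2).2.1 (mul_left_cancel₀ hx.ne' (by rw [← h1, mul_one]))
    · have h2 : l = l' := congrArg (fun z => z.2) h
      subst h2
      rfl
  have hs := ai_EE.comp g hg
  have hs2 : AlgebraicIndependent FX (Sum.elim (fun p : B × ℕ => ((EE (p.2 + 1) (x * p.1.1) : ℝ) : ℂ))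
      (fun l : ℕ => ((EE (l + 1) x : ℝ) : ℂ))) := by
    have e : (Sum.elim (fun p : B × ℕ => ((EE (p.2 + 1) (x * p.1.1) : ℝ) : ℂ))
      (fun l : ℕ => ((EE (l + 1) x : ℝ) : ℂ))) = (fun p : PA × ℕ => ((EE (p.2 + 1) p.1.1 : ℝ) : ℂ)) ∘ g := by
      funext i
      rcases i with p | l <;> rfl
    rw [e]
    exact hs
  obtain ⟨C, hC, hC2⟩ := block_indep (R := FX) (s := fun (b : B) k => ((EE (k + 1) (x * b.1) : ℝ) : ℂ))
    (u := fun (b : B) k => ((value x b.1 k : ℝ) : ℂ)) (w := fun l : ℕ => ((EE (l + 1) x : ℝ) : ℂ)) hs2 (fun b k => by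
      show _ ∈ clf FX _
      have hb := (hB _ b.2).1
      have h1 := EE_mem_sub Complex.ofRealHom (clf FX ((fun k => ((value x b.1 k : ℝ) : ℂ)) '' Iic (k + 1) ∪
        range fun l : ℕ => ((EE (l + 1) x : ℝ) : ℂ))) hx (β := Real.log b.1)
        (subset_clf _ (Or.inl ⟨0, Nat.zero_le _, rfl⟩)) k (fun l _ => subset_clf _ (Or.inr ⟨l, rfl⟩))
        (fun l hl => subset_clf _ (Or.inl ⟨l + 1, Nat.succ_le_succ hl, by
          show ((L x l b.1 : ℝ) : ℂ) = _
          rw [L_eq x l hb]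
          rfl⟩)) k le_rfl
      rw [Real.exp_log hb] at h1
      exact h1)
  refine ⟨C, hC, ?_⟩
  rw [baseField_eq]
  exact hC2

/-- the set of the primes, as real numbers -/
def primes : Set ℝ := {b | ∃ p : ℕ, p.Prime ∧ b = p}

theorem primes_ok : ∀ b ∈ primes, 0 < b ∧ b ≠ 1 ∧ IsAlgebraic ℚ b := by
  rintro _ ⟨p, hp, rfl⟩
  refine ⟨by exact_mod_cast hp.pos, by exact_mod_cast hp.one_lt.ne', isAlgebraic_natCast p⟩

theorem part2 {x : ℝ} (hx : 0 < x) (hxa : IsAlgebraic ℚ x) :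
    ∃ S : Set ℕ, (∀ p ∈ S, p.Prime) ∧ AlgebraicIndependent baseField
      (Sum.elim (fun p : S => ((Real.log (p : ℕ) : ℝ) : ℂ))
        (fun q : {p : ℕ // p.Prime ∧ p ∉ S} × ℕ => ((L x q.2 (q.1 : ℕ) : ℝ) : ℂ))) ∧
      ∀ P : Set ℕ, (∀ p ∈ P, p.Prime) → ¬ AlgebraicIndependent baseField (fun p : P => ((Real.log (p : ℕ) : ℝ) : ℂ)) →
        ∃ q ∈ P, q ∉ S := by
  classical
  obtain ⟨C, hC, hC2⟩ := part1 hx hxa primes primes_ok
  let em : {p : ℕ // p.Prime} → primes := fun p => ⟨(p.1 : ℝ), p.1, p.2, rfl⟩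
  have hem : Function.Injective em := by
    intro p q h
    have h1 : ((p.1 : ℕ) : ℝ) = ((q.1 : ℕ) : ℝ) := congrArg Subtype.val h
    exact Subtype.ext (by exact_mod_cast h1)
  let S : Set ℕ := {p | ∃ h : p.Prime, 0 ∈ C (em ⟨p, h⟩)}
  have hall : ∀ (p : ℕ) (h : p.Prime), p ∉ S → ∀ l : ℕ, l + 1 ∈ C (em ⟨p, h⟩) := by
    intro p h hp l
    by_contra hl
    have h0 : 0 ∉ C (em ⟨p, h⟩) := fun h0 => hp ⟨h, h0⟩
    have := hC (em ⟨p, h⟩) hl h0
    omega
  have hmain : AlgebraicIndependent baseField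
      (Sum.elim (fun p : S => ((Real.log (p : ℕ) : ℝ) : ℂ))
        (fun q : {p : ℕ // p.Prime ∧ p ∉ S} × ℕ => ((L x q.2 (q.1 : ℕ) : ℝ) : ℂ))) := by
    have h1 := hC2.comp (fun i : S ⊕ ({p : ℕ // p.Prime ∧ p ∉ S} × ℕ) =>
      (Sum.elim (fun p : S => Sum.inl ⟨(em ⟨p.1, p.2.choose⟩, 0), p.2.choose_spec⟩)
        (fun q : {p : ℕ // p.Prime ∧ p ∉ S} × ℕ => Sum.inl ⟨(em ⟨q.1.1, q.1.2.1⟩, q.2 + 1),
          hall q.1.1 q.1.2.1 q.1.2.2 q.2⟩) i : {p : primes × ℕ // p.2 ∈ C p.1} ⊕ ℕ)) (by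
      rintro (p | ⟨q, l⟩) (p' | ⟨q', l'⟩) h
      · have h2 := congrArg (fun z : {p : primes × ℕ // p.2 ∈ C p.1} => z.1.1) (Sum.inl_injective h)
        have h3 := hem h2
        exact congrArg Sum.inl (Subtype.ext (congrArg (fun z : {p : ℕ // p.Prime} => z.1) h3))
      · exfalso
        have h2 := congrArg (fun z : {p : primes × ℕ // p.2 ∈ C p.1} => z.1.2) (Sum.inl_injective h)
        simp at h2
      · exfalso
        have h2 := congrArg (fun z : {p : primes × ℕ // p.2 ∈ C p.1} => z.1.2) (Sum.inl_injective h)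
        simp at h2
      · have h2 := congrArg (fun z : {p : primes × ℕ // p.2 ∈ C p.1} => z.1.1) (Sum.inl_injective h)
        have h4 := congrArg (fun z : {p : primes × ℕ // p.2 ∈ C p.1} => z.1.2) (Sum.inl_injective h)
        have h3 := hem h2
        have h5 : q = q' := Subtype.ext (congrArg (fun z : {p : ℕ // p.Prime} => z.1) h3)
        have h6 : l = l' := Nat.succ_injective h4
        rw [h5, h6])
    convert h1 using 1
    funext i
    rcases i with p | ⟨q, l⟩ <;> rfl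
  refine ⟨S, fun p hp => hp.choose, hmain, fun P hP hdep => ?_⟩
  by_contra hcon
  push Not at hcon
  refine hdep ?_
  have h1 := hmain.comp (fun p : P => (Sum.inl (⟨p.1, hcon p.1 p.2⟩ : S) :
      S ⊕ ({p : ℕ // p.Prime ∧ p ∉ S} × ℕ))) (by
    intro p q h
    have h2 : (⟨p.1, hcon p.1 p.2⟩ : S) = ⟨q.1, hcon q.1 q.2⟩ := Sum.inl_injective (by exact h)
    exact Subtype.ext (congrArg (fun z : S => z.1) h2))
  exact h1

theorem result (x : ℝ) (hx : 0 < x) (hxa : IsAlgebraic ℚ x) :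
    -- (1)
    (∀ B : Set ℝ, (∀ b ∈ B, 0 < b ∧ b ≠ 1 ∧ IsAlgebraic ℚ b) →
      ∃ C : B → Set ℕ, (∀ b, (C b)ᶜ.Subsingleton) ∧ AlgebraicIndependent baseField
        (Sum.elim (fun p : {p : B × ℕ // p.2 ∈ C p.1} => ((value x p.1.1 p.1.2 : ℝ) : ℂ))
          (fun l : ℕ => ((E (l + 1) x : ℝ) : ℂ)))) ∧
    -- (2), (3)
    ∃ S : Set ℕ, (∀ p ∈ S, p.Prime) ∧ AlgebraicIndependent baseField
      (Sum.elim (fun p : S => ((Real.log (p : ℕ) : ℝ) : ℂ))
        (fun q : {p : ℕ // p.Prime ∧ p ∉ S} × ℕ => ((L x q.2 (q.1 : ℕ) : ℝ) : ℂ))) ∧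
      ∀ P : Set ℕ, (∀ p ∈ P, p.Prime) → ¬ AlgebraicIndependent baseField (fun p : P => ((Real.log (p : ℕ) : ℝ) : ℂ)) →
        ∃ q ∈ P, q ∉ S :=
  ⟨fun B hB => part1 hx hxa B hB, part2 hx hxa⟩

end Pool.Agent.Results.MP_d171e3_nt.OneExceptionPerPrime
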