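import Pool.Agent.N770.DirLogs

/-!
# The partners of a linear form in logarithms in quadratic relations are linearly independent

Let `v` be a transcendental linear combination, with algebraic coefficients, of `1` and of
logarithms of algebraic numbers. Consider a family, finite or infinite, of such linear forms `u_i`
outside `⟨1, v⟩` such that `u_i` and `v` satisfy a nonzero polynomial relation of degree at most two
over the algebraic numbers, for each `i`. We prove: if any two members of the family are linearly
independent modulo `⟨1, v⟩`, then the whole family is linearly independent modulo `⟨1, v⟩`.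

In particular, if `v = λ` and the `u_i = μ_i` are logarithms of algebraic numbers and any three
numbers `λ, μ_i, μ_j` are linearly independent over `ℚ`, then so are all the numbers
`λ, μ_1, μ_2, ...` (by the theorem of Baker). For example, if both pairs `(log 2, log 3)` and
`(log 2, log 5)` satisfy a quadratic relation, then `(log 2, log 15)` does not.

The proof. Modulo `⟨1, v⟩`, an element `u_i` is a square root of a polynomial in `v` of degree at
most two which is not a square, or a constant multiple of `v ^ 2` or of `1 / (v - r)` (`Dir`). The
square roots are linearly independent over `ℚ̄(v)`, unless two of the polynomials are proportional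
(`Sqrt`). By the strong six exponentials theorem at most one of the functions `v ^ 2` and
`1 / (v - r)` is a linear form in logarithms.
-/

set_option autoImplicit false

namespace Pool.Agent.Results.MP_d171e3_nt.QuadraticPartnersIndependent

/-- The space of all linear combinations, with algebraic coefficients, of `1` and of logarithms of
algebraic numbers. -/
noncomputable def LogForms : Submodule (algebraicClosure ℚ ℂ) ℂ :=
  Submodule.span (algebraicClosure ℚ ℂ) ({1} ∪ {z : ℂ | IsAlgebraic ℚ (Complex.exp z)})

/-- `u` and `v` satisfy a nonzero polynomial relation, with algebraic coefficients, of total degree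
at most two -/
def QuadraticRelation (u v : ℂ) : Prop :=
  ∃ c : Fin 6 → algebraicClosure ℚ ℂ, c ≠ 0 ∧
    (c 0 : ℂ) * u ^ 2 + (c 1 : ℂ) * (u * v) + (c 2 : ℂ) * v ^ 2 + (c 3 : ℂ) * u + (c 4 : ℂ) * v +
      (c 5 : ℂ) = 0

/-- **Main result.** -/
theorem result (v : ℂ) (hv : v ∈ LogForms) (hvt : Transcendental ℚ v) {ι : Type} (u : ι → ℂ)
    (hu : ∀ i, u i ∈ LogForms) (hq : ∀ i, QuadraticRelation (u i) v)
    (hn : ∀ i, u i ∉ Submodule.span (algebraicClosure ℚ ℂ) ({1, v} : Set ℂ))
    (hp : ∀ i j, i ≠ j → ∀ c : algebraicClosure ℚ ℂ,
      u i - (c : ℂ) * u j ∉ Submodule.span (algebraicClosure ℚ ℂ) ({1, v} : Set ℂ)) :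
    LinearIndependent (algebraicClosure ℚ ℂ)
      (fun i => (Submodule.span (algebraicClosure ℚ ℂ) ({1, v} : Set ℂ)).mkQ (u i)) := by
  refine Pool.Agent.N770.directions_logs v hv hvt u hu ?_ hn hp
  intro i
  obtain ⟨c, hc, hrel⟩ := hq i
  refine ⟨c, hc, ?_⟩
  rw [← hrel]
  have h : ∀ (a : algebraicClosure ℚ ℂ) (x : ℂ), a • x = (a : ℂ) * x := fun a x =>
    Algebra.smul_def a x
  rw [h, h, h, h, h, h]
  ring

end Pool.Agent.Results.MP_d171e3_nt.QuadraticPartnersIndependent
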