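import Pool.Agent.N680.IR.Arr
import Pool.Agent.Results.MP_d171e3_nt.FewPrimesAllLogs

/-!
# Logarithms of products of few independent random primes with arbitrary distributions

Let `ℚ̄` be the field of algebraic numbers, `D ≥ 1` and `r = D ^ 2 + 4 D - 2` (so `r = 3` for `D = 1`). Let `X_{i j}` be
independent random primes, `i < n`, `j < r`, with ARBITRARY, also different, distributions which do not take any value with a
probability larger than `δ`. Then for all nonzero integers `c_{i j}`, with probability at least `1 - C δ ^ ε`, the logarithms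

  `y_i = log ∏_j X_{i j} ^ (c_{i j})`

have no relation of degree at most `D` in every `y_i`, also together with any number of other logarithms of algebraic numbers,
chosen after the `y_i`, and independent of them, in which the relation is linear: see `NoRelation` in the starting file
`FewPrimesAllLogs`. The coefficients of the relation lie in a space `W` of dimension at most `m` of arbitrary complex numbers,
and `F` is a space of linear forms in logarithms of bounded dimension which depends only on `W`, `F = ℚ̄` for `W = ℚ̄`. The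
numbers `ε` and `C` depend only on `n`, `m` and `D`.

The same is true for arrays of values of arithmetic functions: if `F_{i j}` are arbitrary prime valued functions which take no
value more than `δ M` times on `[1, M]`, for instance the largest prime factors of `t`, or of the values of a polynomial, or
any injective functions, there are no relations between the logarithms of the products `∏_j F_{i j}(t_{i j}) ^ (c_{i j})`, for
all but `C δ ^ ε M ^ (n r)` arrays `t` of numbers in `[1, M]`.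

The starting theorem concerns primes which are uniformly distributed in one finite set, the same for all `i` and `j`.

Proof. The probability of a relation is an affine function of each of the distributions. So it becomes larger if one of them
after the other is replaced by a uniform distribution on the `⌊1 / δ⌋` primes with the largest conditional probability of a
relation. The union of these sets of primes is a finite set to which the starting theorem applies.
-/

set_option autoImplicit false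

namespace Pool.Agent.Results.MP_d171e3_nt.RandomPrimes

open MeasureTheory ProbabilityTheory Module

/-- **Random primes.** -/
theorem result (n D m : ℕ) (hn : 1 ≤ n) (hD : 1 ≤ D) : ∃ ε : ℝ, 0 < ε ∧ ∃ C : ℝ,
    ∀ W : Submodule (algebraicClosure ℚ ℂ) ℂ, Module.Finite (algebraicClosure ℚ ℂ) W →
    finrank (algebraicClosure ℚ ℂ) W ≤ m →
    ∃ F : Submodule (algebraicClosure ℚ ℂ) ℂ, Module.Finite (algebraicClosure ℚ ℂ) F ∧
    (finrank (algebraicClosure ℚ ℂ) F : ℝ) ≤ C ∧ F ≤ FewPrimesAllLogs.LogForms ∧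
    (W ≤ Submodule.span (algebraicClosure ℚ ℂ) {(1 : ℂ)} →
      F = Submodule.span (algebraicClosure ℚ ℂ) {(1 : ℂ)}) ∧
    ∀ c : Fin n → Fin (D ^ 2 + 4 * D - 2) → ℤ, (∀ i j, c i j ≠ 0) →
    (∀ (Ω : Type) [MeasurableSpace Ω] (P : Measure Ω) [IsProbabilityMeasure P]
      (X : Fin n × Fin (D ^ 2 + 4 * D - 2) → Ω → ℕ), (∀ q, Measurable (X q)) → iIndepFun X P →
      (∀ q ω, (X q ω).Prime) → ∀ δ : ℝ, 0 < δ → (∀ q v, P {ω | X q ω = v} ≤ ENNReal.ofReal δ) →
      P {ω | ¬ FewPrimesAllLogs.NoRelation W F D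
          (fun i => (Real.log (∏ j, (X (i, j) ω : ℝ) ^ (c i j)) : ℂ))} ≤ ENNReal.ofReal (C * δ ^ ε)) ∧
    (∀ (δ : ℝ) (M : ℕ) (f : Fin n → Fin (D ^ 2 + 4 * D - 2) → ℕ → ℕ), 0 < δ → 1 ≤ M → (∀ i j t, (f i j t).Prime) →
      (∀ i j v, (({t : ℕ | 1 ≤ t ∧ t ≤ M ∧ f i j t = v}.ncard : ℕ) : ℝ) ≤ δ * M) →
      (({t : Fin n → Fin (D ^ 2 + 4 * D - 2) → ℕ | (∀ i j, 1 ≤ t i j ∧ t i j ≤ M) ∧
        ¬ FewPrimesAllLogs.NoRelation W F D
          (fun i => (Real.log (∏ j, (f i j (t i j) : ℝ) ^ (c i j)) : ℂ))}.ncard : ℕ) : ℝ) ≤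
        C * δ ^ ε * (M : ℝ) ^ (n * (D ^ 2 + 4 * D - 2))) := by
  classical
  obtain ⟨δ₀, hδ₀, C₀, h⟩ := FewPrimesAllLogs.result n D m hD
  obtain ⟨r, hr⟩ : ∃ r, r = D ^ 2 + 4 * D - 2 := ⟨_, rfl⟩
  have hr1 : 1 ≤ r := by
    have : 1 ≤ D ^ 2 := Nat.one_le_pow _ _ hD
    omega
  rw [← hr] at h ⊢
  obtain ⟨ε, hε⟩ : ∃ ε, ε = min δ₀ 1 := ⟨_, rfl⟩
  have hε0 : 0 < ε := by rw [hε]; positivity
  have hcard : Fintype.card (Fin n × Fin r) = n * r := by simp
  have hnr : (1 : ℝ) ≤ ((n * r : ℕ) : ℝ) := by exact_mod_cast Nat.mul_pos hn hr1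
  have hε1 : ε ≤ 1 := by rw [hε]; exact min_le_right _ _
  have hCpos : 0 ≤ max C₀ 0 := le_max_right _ _
  refine ⟨ε, hε0, max (Pool.Agent.N680.IR.cstR (n * r) (max C₀ 0)) C₀, fun W hW hWm => ?_⟩
  obtain ⟨F, h1, h2, h3, h4, h5⟩ := h W hW hWm
  refine ⟨F, h1, h2.trans (le_max_right _ _), h3, h4, fun c hc => ?_⟩
  obtain ⟨E, hE⟩ : ∃ E : (Fin n → Fin r → ℕ) → Prop, E = fun x => ¬ FewPrimesAllLogs.NoRelation W F D
    (fun i => (Real.log (∏ j, (x i j : ℝ) ^ (c i j)) : ℂ)) := ⟨_, rfl⟩
  obtain ⟨Bad, hBad⟩ : ∃ Bad : Set (Fin n × Fin r → ℕ), Bad = {x | (∀ q, (x q).Prime) ∧ E fun i j => x (i, j)} :=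
    ⟨_, rfl⟩
  have hBad' : ∀ x, x ∈ Bad ↔ (∀ q, (x q).Prime) ∧ E fun i j => x (i, j) := fun x => by
    rw [hBad]
    rfl
  have hset := fun (inst : DecidableEq (Fin n × Fin r)) (T : Finset ℕ) (hT : T.Nonempty) =>
    Pool.Agent.N680.IR.sets_of_families (n := n) (r := r) Nat.Prime E (C := max C₀ 0)
      (e := ((n * r : ℕ) : ℝ) - ε) (e' := ((n * r : ℕ) : ℝ) - δ₀) hCpos (by linarith)
      (by have := min_le_left δ₀ 1; rw [hε]; linarith)
      (fun N p hp hpi => by
        refine le_trans (le_of_eq ?_) ((h5 N p hp hpi c hc).trans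
          (mul_le_mul_of_nonneg_right (le_max_left _ _) (Real.rpow_nonneg (Nat.cast_nonneg _) _)))
        have h6 : (Finset.univ.filter fun f : Fin n → Fin r → Fin N => E fun i j => p (f i j)) =
            Finset.univ.filter fun f : Fin n → Fin r → Fin N =>
              ¬ FewPrimesAllLogs.NoRelation W F D (fun i => (Real.log (∏ j, (p (f i j) : ℝ) ^ (c i j)) : ℂ)) := by
          ext f
          rw [Finset.mem_filter, Finset.mem_filter, hE]
        rw [h6])
      ⟨hn, hr1⟩ Bad hBad' inst T hT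
  have hexp : ((n * r : ℕ) : ℝ) - (((n * r : ℕ) : ℝ) - ε) = ε := by ring
  refine ⟨?_, ?_⟩
  · intro Ω _ P _ X hX hind hprime δ hδ hP
    have h6 := Pool.Agent.N680.IR.probR P X hind hX Bad (max C₀ 0) (((n * r : ℕ) : ℝ) - ε) hCpos (by linarith)
      (hset _) (by rw [hcard]; linarith) δ hδ hP
    rw [hcard, hexp] at h6
    refine le_trans (measure_mono ?_) (h6.trans (ENNReal.ofReal_le_ofReal
      (mul_le_mul_of_nonneg_right (le_max_left _ _) (Real.rpow_nonneg hδ.le _))))
    intro ω hω
    rw [Set.mem_setOf_eq, hBad', hE]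
    exact ⟨fun q => hprime q ω, hω⟩
  · intro δ M f hδ hM hf hfv
    have h6 := Pool.Agent.N680.IR.arithR Bad (max C₀ 0) (((n * r : ℕ) : ℝ) - ε) hCpos (by linarith)
      (hset _) (by rw [hcard]; linarith) δ hδ M hM (fun q => f q.1 q.2) (by
        intro q v
        refine le_trans (le_of_eq ?_) (hfv q.1 q.2 v)
        exact congrArg Nat.cast (Pool.Agent.N680.IR.card_eq_ncard fun t => by simp [and_assoc]))
    rw [hcard, hexp] at h6
    have h7 := Pool.Agent.N680.IR.ncard_curry (M := M) f Bad (fun x => (∀ i j, (x i j).Prime) ∧ E x) (fun x => by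
      rw [hBad']
      exact ⟨fun h => ⟨fun i j => h.1 (i, j), h.2⟩, fun h => ⟨fun q => h.1 q.1 q.2, h.2⟩⟩)
      (fun a b => Classical.propDecidable (a = b))
    rw [← h7] at h6
    have h8 : {t : Fin n → Fin r → ℕ | (∀ i j, 1 ≤ t i j ∧ t i j ≤ M) ∧
        ((∀ i j, (f i j (t i j)).Prime) ∧ E fun i j => f i j (t i j))} =
        {t : Fin n → Fin r → ℕ | (∀ i j, 1 ≤ t i j ∧ t i j ≤ M) ∧
        ¬ FewPrimesAllLogs.NoRelation W F D
          (fun i => (Real.log (∏ j, (f i j (t i j) : ℝ) ^ (c i j)) : ℂ))} := by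
      ext t
      rw [Set.mem_setOf_eq, Set.mem_setOf_eq, hE]
      exact ⟨fun h => ⟨h.1, h.2.2⟩, fun h => ⟨h.1, fun i j => hf i j _, h.2⟩⟩
    rw [h8] at h6
    refine h6.trans ?_
    exact mul_le_mul_of_nonneg_right (mul_le_mul_of_nonneg_right (le_max_left _ _) (Real.rpow_nonneg hδ.le _))
      (by positivity)

end Pool.Agent.Results.MP_d171e3_nt.RandomPrimes
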